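import Pool.Agent.H90.T8.Da
import Pool.Agent.H88.T7.Gk
import Pool.Agent.H88.T7.Gm
import Pool.Agent.H88.T7.Gn
import Pool.Agent.H93.T1.Ca
import Pool.Agent.H93.T1.Cf

/-!
ROW Fa (project MP_78d38b_T8, about 110 lines): primes with a given Frobenius element.

PROOF (modification of `Go_core` and `c1_of` of the PROVED file `Pool/Agent/H88/T7/Go.lean`, much simpler).
`H93T1.frob_inf g` (`hL.gal`): infinitely many primes `q` with `j`, `w`: `j.Coprime (orderOf g)`, `(q : 𝓞 M) ∈ w.asIdeal`,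
`φ = g ^ j`, `φ • x - x ^ q ∈ w.asIdeal`, so `rp w = q` (`H38T1.mem_iff_eq`) and `IsFb φ w`. Remove the finitely many `q`
with `q = 2`, or such that a place `v` of `K` above `q` is ramified (`FbFin`: the ramified places are a finite set,
copy of the private theorem `Fb_fin` in `Pool/Agent/H88/T7/Fb.lean`, below the statement is available from
`H88T7.exists_B` too: take `B` of `exists_B K hodd ∅`, whose field `Bas.unr` says `e = 1` outside `B`), or such that for a
place `v` above `q` and some `u ∈ Z` `v.valuation K (rep u) ≠ 1` (finite: `fin_bad (rep_ne u)`; see `c1_of` at the end of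
`Go.lean`, where exactly these primes are removed: `Go_fin`, `Set.Infinite.sdiff`/`diff`, `Set.Infinite.mono`).
For the remaining `q`:
(1) `count_places hL hF hun : (ov K {rp w}).ncard = Nat.card (Quotient (SameCycle.setoid (actH K M φ)))`, and the setoid of
`actH K M (g ^ j)` is that of `actH K M g` by `(pow_cyc hj).1` (`Setoid.ext`; rewrite the setoid).
(2) for `u ∈ Z`, `σ`, `t` with `t ^ 2 = σ (rep u)`, `actH K M g σ = σ`, `g t = - t`: `v = pl σ w ∈ ov K {q}` (`rp_pl`,
`H38T1.mem_iff_eq`). `(geom hL hF hun).2 σ`: `inertiaDeg = minimalPeriod (actH K M φ) σ`, which is one, since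
`(pow_cyc hj).2 σ` reduces it to `actH K M g` and `σ` is fixed (`Function.minimalPeriod_eq_one_iff_isFixedPt`). `pow_sign hj` with
`e = 1` (`t ≠ 0` as `σ (rep u) ≠ 0`, `rep_ne`): `φ t = if (1 : ZMod 2) = 0 then t else - t`. `leg7 hF h2 σ (f := 1)`: `la v u = 1`
(`φ ^ 1 = φ`; `actH K M φ σ = σ` from the minimal period one or from `actH K M g σ = σ` and `map_pow`).
-/

set_option autoImplicit false
set_option linter.unusedSectionVars false
open scoped Classical

open WithZero NumberField IsDedekindDomain H38RT H88T7 H88T8 H90T8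
open H38T1 (SC sc scu scu_surj sc_mul sc_of_ne sc_surj rep rep_ne sc_rep sc_eq_zero eo la si Pri OddP
  LD XX XX' NS ov rp SqMod)

namespace H30T8

variable {K M : Type} [Field K] [NumberField K] [Field M] [NumberField M]

/-- Only finitely many rational primes lie below a finite set of places. -/
private lemma Fa_fin {K : Type} [Field K] [NumberField K] {S : Set (HeightOneSpectrum (𝓞 K))}
    (hS : S.Finite) : {p : ℕ | p.Prime ∧ ∃ v ∈ S, (p : 𝓞 K) ∈ v.asIdeal}.Finite := by
  refine (hS.image rp).subset ?_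
  rintro p ⟨hp, v, hv, hpv⟩
  exact ⟨v, hv, (H38T1.mem_iff_eq hp).1 hpv⟩

private theorem Fa_ram (K : Type) [Field K] [NumberField K] :
    {v : HeightOneSpectrum (𝓞 K) | v.asIdeal ∣ differentIdeal ℤ (𝓞 K)}.Finite := by
  refine Ideal.finite_factors ?_
  exact differentIdeal_ne_bot

private theorem Fa_unr (K : Type) [Field K] [NumberField K] (v : HeightOneSpectrum (𝓞 K))
    (h : ¬ v.asIdeal ∣ differentIdeal ℤ (𝓞 K)) : v.asIdeal.ramificationIdx ℤ = 1 := by
  have h1 : Algebra.IsUnramifiedAt ℤ v.asIdeal := not_dvd_differentIdeal_iff.1 h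
  exact Ideal.ramificationIdx_eq_one v.asIdeal ℤ

theorem frob_places (hodd : Odd (Module.finrank ℚ K)) (hL : BigL K M) (g : M ≃ₐ[ℚ] M)
    (Z : Finset (SC K)) :
    {q : ℕ | q.Prime ∧ q ≠ 2 ∧
      (ov K {q}).ncard = Nat.card (Quotient (Equiv.Perm.SameCycle.setoid (actH K M g))) ∧
      ∀ u ∈ Z, (∃ (σ : K →ₐ[ℚ] M) (t : M), t ^ 2 = σ (rep u) ∧ actH K M g σ = σ ∧ g t = - t) →
        ∃ v ∈ ov K {q}, la v u = 1}.Infinite := by
  have : IsGalois ℚ M := hL.gal
  have hbad : {p : ℕ | p = 2 ∨ (p.Prime ∧ ∃ v ∈ {v : HeightOneSpectrum (𝓞 K) |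
      v.asIdeal ∣ differentIdeal ℤ (𝓞 K)}, (p : 𝓞 K) ∈ v.asIdeal) ∨ (p.Prime ∧ ∃ v ∈ ⋃ z ∈ Z, {v : HeightOneSpectrum (𝓞 K) |
      v.valuation K (rep z) ≠ 1}, (p : 𝓞 K) ∈ v.asIdeal)}.Finite := by
    have h2 : (⋃ z ∈ Z, {v : HeightOneSpectrum (𝓞 K) | v.valuation K (rep z) ≠ 1}).Finite := by
      exact Set.Finite.biUnion Z.finite_toSet fun z _ => fin_bad (H38T1.rep_ne z)
    refine ((Set.finite_singleton 2).union ((Fa_fin (Fa_ram K)).union (Fa_fin h2))).subset ?_
    rintro p (h | h | h)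
    · exact Or.inl h
    · exact Or.inr (Or.inl h)
    · exact Or.inr (Or.inr h)
  refine ((H93T1.frob_inf g).sdiff hbad).mono ?_
  rintro p ⟨⟨hp, j, w, hj, hpw, hφ⟩, hgood⟩
  have hp2 : p ≠ 2 := fun h => hgood (Or.inl h)
  have hrp : rp w = p := (H38T1.mem_iff_eq hp).1 hpw
  have hw2 : rp w ≠ 2 := by rw [hrp]; exact hp2
  have hF : IsFb (g ^ j) w := by
    intro x
    rw [hrp]
    exact hφ x
  have hun : ∀ v : HeightOneSpectrum (𝓞 K), rp v = rp w → v.asIdeal.ramificationIdx ℤ = 1 := by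
    intro v hv
    refine Fa_unr K v fun h => hgood (Or.inr (Or.inl ⟨hp, v, h, ?_⟩))
    exact (H38T1.mem_iff_eq hp).2 (hv.trans hrp)
  obtain ⟨hcyc, hper⟩ := pow_cyc (K := K) hj
  obtain ⟨hgeo, hin⟩ := geom hL hF hun
  refine ⟨hp, hp2, ?_, ?_⟩
  · have h1 := count_places hL hF hun
    rw [hrp] at h1
    rw [h1]
    have h2 : Equiv.Perm.SameCycle.setoid (actH K M (g ^ j)) =
        Equiv.Perm.SameCycle.setoid (actH K M g) := by
      ext σ τ
      exact hcyc σ τ
    rw [h2]
  · rintro u hu ⟨σ, t, ht, hfix, hgt⟩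
    have hm1 : Function.minimalPeriod (actH K M (g ^ j)) σ = 1 := by
      rw [hper]
      exact Function.minimalPeriod_eq_one_iff_isFixedPt.2 hfix
    have hfix' : actH K M (g ^ j) σ = σ := Function.minimalPeriod_eq_one_iff_isFixedPt.1 hm1
    have hplp : (p : 𝓞 K) ∈ (pl σ w).asIdeal := (H38T1.mem_iff_eq hp).2 ((rp_pl σ w).trans hrp)
    have hov : pl σ w ∈ ov K {p} := ⟨p, rfl, hplp⟩
    have ht0 : t ≠ 0 := by
      intro h
      rw [h, zero_pow two_ne_zero] at ht
      exact (map_ne_zero σ).2 (H38T1.rep_ne u) ht.symm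
    have hval : (pl σ w).valuation K (rep u) = 1 := by
      by_contra h
      exact hgood (Or.inr (Or.inr ⟨hp, pl σ w, Set.mem_biUnion hu h, hplp⟩))
    have hsgn : (g ^ j) t = if (1 : ZMod 2) = 0 then t else - t :=
      pow_sign hj ht0 (by rw [if_neg one_ne_zero]; exact hgt)
    refine ⟨pl σ w, hov, ?_⟩
    refine (leg7 hF hw2 σ (f := 1) ?_ one_pos ?_ ht ?_ hval).2
    · rw [hin, hm1]
    · rw [pow_one]
      exact hfix'
    · rw [pow_one]
      exact hsgn

end H30T8
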