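import Pool.Agent.H88.T7.Ga

/-!
ROW Fb (project MP_78d38b_T8, about 120 lines): the complex conjugation and the identity.

PROOF. Choose a ring homomorphism `ι : M →+* ℂ` (`NumberField.Embeddings...`: `Nonempty (M →+* ℂ)`). `M / ℚ` is normal
(`hL.gal`), so `conjugate ι = ι ∘ g` for some `g : M ≃ₐ[ℚ] M` (all embeddings of a normal extension differ by automorphisms:
e.g. `NumberField.InfinitePlace.exists_smul_eq_of_comap_eq`/`ComplexEmbedding.exists_comp_symm_eq_of_comp_eq`, with base field `ℚ`,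
where both embeddings have the same (unique) restriction to `ℚ`). The map `T : (K →ₐ[ℚ] M) → (K →+* ℂ)`,
`σ ↦ ι.comp σ` is injective, both sides have `finrank ℚ K` elements (`hL.card`, `NumberField.Embeddings.card K ℂ`), so it is bijective.
`T (actH K M g σ) = conjugate (T σ)`. `actH K M g` is an involution (injectivity of `T`; conjugate twice is the identity), so for a
permutation `π` with `π * π = 1`: `π.SameCycle σ τ ↔ σ = τ ∨ π σ = τ`. The map `σ ↦ InfinitePlace.mk (T σ)` induces a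
bijection `Quotient (SameCycle.setoid π) ≃ InfinitePlace K` (`InfinitePlace.mk_eq_iff`: `mk φ = mk ψ ↔ φ = ψ ∨ conjugate φ = ψ`, and `mk`
is onto: `InfinitePlace.mk_embedding`). `Nat.card (InfinitePlace K) = nrRealPlaces K + nrComplexPlaces K`
(`InfinitePlace.card_eq_nrRealPlaces_add_nrComplexPlaces`) and `nrRealPlaces K + 2 * nrComplexPlaces K = finrank ℚ K`
(`InfinitePlace.card_add_two_mul_card_eq_rank`).
one_orb: `actH K M 1 = 1` (`map_one`), `SameCycle` of `1` is equality (`Equiv.Perm.sameCycle_one`), so the quotient is `K →ₐ[ℚ] M`, `hL.card`.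
-/

set_option autoImplicit false
set_option linter.unusedSectionVars false
open scoped Classical

open WithZero NumberField IsDedekindDomain H88T7

namespace H30T8

variable {K M : Type} [Field K] [NumberField K] [Field M] [NumberField M]

lemma fb_exists_conj (hL : BigL K M) (ι : M →+* ℂ) : ∃ g : M ≃ₐ[ℚ] M,
    ι.comp (g : M →+* M) = ComplexEmbedding.conjugate ι := by
  haveI := hL.gal
  obtain ⟨s, hs⟩ := ComplexEmbedding.exists_comp_symm_eq_of_comp_eq (k := ℚ) ι
    (ComplexEmbedding.conjugate ι) (RingHom.ext fun x => by simp)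
  exact ⟨s.symm, hs⟩

/-- Composition with a complex embedding. -/
noncomputable def fbT (ι : M →+* ℂ) (σ : K →ₐ[ℚ] M) : K →+* ℂ := ι.comp (σ : K →+* M)

lemma fbT_apply (ι : M →+* ℂ) (σ : K →ₐ[ℚ] M) (x : K) : fbT ι σ x = ι (σ x) := rfl

lemma fbT_inj (ι : M →+* ℂ) : Function.Injective (fbT (K := K) ι) := by
  intro σ τ h
  ext x
  have h1 := RingHom.congr_fun h x
  rw [fbT_apply, fbT_apply] at h1
  exact ι.injective h1

lemma fbT_bij (hL : BigL K M) (ι : M →+* ℂ) : Function.Bijective (fbT (K := K) ι) := by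
  rw [Fintype.bijective_iff_injective_and_card]
  refine ⟨fbT_inj ι, ?_⟩
  rw [hL.card, NumberField.Embeddings.card K ℂ]

lemma fbT_act (ι : M →+* ℂ) (g : M ≃ₐ[ℚ] M)
    (hg : ι.comp (g : M →+* M) = ComplexEmbedding.conjugate ι) (σ : K →ₐ[ℚ] M) :
    fbT ι (actH K M g σ) = ComplexEmbedding.conjugate (fbT ι σ) := by
  ext x
  rw [fbT_apply, actH_apply]
  have h1 := RingHom.congr_fun hg (σ x)
  have h2 : (ι.comp (g : M →+* M)) (σ x) = ι (g (σ x)) := rfl
  rw [h2] at h1
  rw [h1]
  rfl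

lemma fb_invol (ι : M →+* ℂ) (g : M ≃ₐ[ℚ] M)
    (hg : ι.comp (g : M →+* M) = ComplexEmbedding.conjugate ι) (σ : K →ₐ[ℚ] M) :
    actH K M g (actH K M g σ) = σ := by
  apply fbT_inj ι
  rw [fbT_act ι g hg, fbT_act ι g hg]
  ext x
  simp [ComplexEmbedding.conjugate_coe_eq]

lemma fb_same {X : Type} (π : Equiv.Perm X) (hπ : ∀ x, π (π x) = x) (x y : X) :
    π.SameCycle x y ↔ x = y ∨ π x = y := by
  constructor
  · rintro ⟨i, hi⟩
    have hsq : π ^ (2 : ℤ) = 1 := by
      ext z
      rw [show (2 : ℤ) = 1 + 1 from rfl, zpow_add, zpow_one]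
      exact hπ z
    rcases Int.even_or_odd' i with ⟨k, hk | hk⟩
    · left
      rw [hk, zpow_mul, hsq, one_zpow] at hi
      exact hi
    · right
      rw [hk, zpow_add, zpow_mul, hsq, one_zpow, zpow_one, one_mul] at hi
      exact hi
  · rintro (h | h)
    · rw [h]
    · exact ⟨1, by rw [zpow_one]; exact h⟩

lemma fb_card (hL : BigL K M) (ι : M →+* ℂ) (g : M ≃ₐ[ℚ] M)
    (hg : ι.comp (g : M →+* M) = ComplexEmbedding.conjugate ι) :
    Nat.card (Quotient (Equiv.Perm.SameCycle.setoid (actH K M g))) =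
      Nat.card (InfinitePlace K) := by
  have hmk : ∀ σ τ : K →ₐ[ℚ] M, InfinitePlace.mk (fbT ι σ) = InfinitePlace.mk (fbT ι τ) ↔
      (actH K M g).SameCycle σ τ := by
    intro σ τ
    rw [InfinitePlace.mk_eq_iff, fb_same _ (fb_invol ι g hg), ← fbT_act ι g hg,
      (fbT_inj ι).eq_iff, (fbT_inj ι).eq_iff]
  refine Nat.card_congr (Equiv.ofBijective
    (Quotient.lift (fun σ : K →ₐ[ℚ] M => InfinitePlace.mk (fbT ι σ)) ?_) ⟨?_, ?_⟩)
  · intro σ τ h
    exact (hmk σ τ).2 h
  · intro a b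
    induction a using Quotient.inductionOn with
    | _ σ =>
      induction b using Quotient.inductionOn with
      | _ τ =>
        intro h
        exact Quotient.sound ((hmk σ τ).1 h)
  · intro v
    obtain ⟨σ, hσ⟩ := (fbT_bij hL ι).2 v.embedding
    refine ⟨Quotient.mk _ σ, ?_⟩
    change InfinitePlace.mk (fbT ι σ) = v
    rw [hσ, InfinitePlace.mk_embedding]

theorem conj_orb (hL : BigL K M) : ∃ g : M ≃ₐ[ℚ] M,
    Nat.card (Quotient (Equiv.Perm.SameCycle.setoid (actH K M g))) +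
      InfinitePlace.nrComplexPlaces K = Module.finrank ℚ K := by
  obtain ⟨ι⟩ : Nonempty (M →+* ℂ) := inferInstance
  obtain ⟨g, hg⟩ := fb_exists_conj hL ι
  refine ⟨g, ?_⟩
  have h1 := fb_card hL ι g hg
  have h2 := InfinitePlace.card_eq_nrRealPlaces_add_nrComplexPlaces (K := K)
  have h3 := InfinitePlace.card_add_two_mul_card_eq_rank K
  rw [h1, Nat.card_eq_fintype_card]
  omega

theorem one_orb (hL : BigL K M) :
    Nat.card (Quotient (Equiv.Perm.SameCycle.setoid (actH K M (1 : M ≃ₐ[ℚ] M)))) =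
      Module.finrank ℚ K := by
  have h1 : ∀ σ τ : K →ₐ[ℚ] M, (actH K M (1 : M ≃ₐ[ℚ] M)).SameCycle σ τ ↔ σ = τ := by
    intro σ τ
    rw [map_one, Equiv.Perm.sameCycle_one]
  rw [← hL.card, ← Nat.card_eq_fintype_card]
  refine Nat.card_congr (Equiv.symm (Equiv.ofBijective
    (fun σ : K →ₐ[ℚ] M => (Quotient.mk _ σ :
      Quotient (Equiv.Perm.SameCycle.setoid (actH K M (1 : M ≃ₐ[ℚ] M))))) ⟨?_, ?_⟩))
  · intro σ τ h
    exact (h1 σ τ).1 (Quotient.exact h)
  · intro a
    induction a using Quotient.inductionOn with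
    | _ σ => exact ⟨σ, rfl⟩

end H30T8
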