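import Pool.Agent.H90.T8.Da

/-!
ROW Fc (project MP_78d38b_T8, about 130 lines): classes which become squares in `M`.

PROOF. sq_root: `em σ (sc (rep u)) = sc (σ (rep u))` (`em_sc`, `sc_rep`), and `sc x = 0` iff `x` is a square (`sc_eq_zero`), so
`em σ u = 0` gives `t` with `t ^ 2 = σ (rep u)`, `t ≠ 0`.
desc: let `t : M` be fixed by all `g` with `actH K M g σ = σ` (i.e. `g (σ x) = σ x` for all `x`). Then `t = σ y` for some `y`: `M` is Galois over
`ℚ`, hence over the intermediate field `E = σ.fieldRange` (`IsGalois.tower_top_intermediateField`), and an element fixed by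
all `g : M ≃ₐ[E] M` lies in `E` (`IsGalois.mem_bot_iff_fixed` or `IntermediateField.fixedField_fixingSubgroup`,
with `g ∈ E.fixingSubgroup`).
ker_gen: `u ∈ E0m`, `u ≠ 0`: take any `σ` (there is one: `hL.card`, `finrank > 0`), `t` from sq_root. If all `g` fixing `σ` fix `t` then `t = σ y`,
`σ (y ^ 2) = σ (rep u)`, `rep u = y ^ 2`, `u = 0`. So some `g` with `actH K M g σ = σ` has `g t ≠ t`; `(g t) ^ 2 = g (σ (rep u)) = t ^ 2`, so `g t = - t`.
ker_fin: fix `σ`; choose `t u` with `(t u) ^ 2 = σ (rep u)` for `u` with `em σ u = 0`. The map `u ↦ {g : M ≃ₐ[ℚ] M | g (t u) = t u}` into the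
finite type `Set (M ≃ₐ[ℚ] M)` is injective on `{u | em σ u = 0}`: if the sets for `u` and `u'` are equal then every `g` fixing `σ` multiplies
`t u` and `t u'` by the same sign, so fixes `t u * t u'`, so `t u * t u' = σ y`, `rep u * rep u' = y ^ 2`, `u + u' = 0`
(`sc_mul`, `sc_rep`), `u = u'` (`SC.two_smul`). Hence `{u | em σ u = 0}` is finite.
E0_fin, QK_fin: `E0m K M ⊆ {u | em σ u = 0}`; for `QKm M` take `K = ℚ`, `σ = Algebra.ofId ℚ M` (`res M = em (Algebra.ofId ℚ M)`, `rfl` or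
by `scm` of equal maps).
-/

set_option autoImplicit false
set_option linter.unusedSectionVars false
open scoped Classical

open WithZero NumberField IsDedekindDomain H38RT H88T7 H88T8 H90T8
open H38T1 (SC sc scu scu_surj sc_mul sc_of_ne sc_surj rep rep_ne sc_rep sc_eq_zero eo la si Pri OddP
  LD XX XX' NS ov rp SqMod)

namespace H30T8

variable {K M : Type} [Field K] [NumberField K] [Field M] [NumberField M]

private lemma Fc_sq {σ : K →ₐ[ℚ] M} {u : SC K} (h : em σ u = 0) :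
    ∃ t : M, t ≠ 0 ∧ t ^ 2 = σ (rep u) := by
  have h1 : σ (rep u) ≠ 0 := (map_ne_zero _).2 (rep_ne u)
  have h2 : sc (σ (rep u)) = 0 := by
    rw [← em_sc σ (rep_ne u), sc_rep, h]
  obtain ⟨t, ht⟩ := (sc_eq_zero h1).1 h2
  refine ⟨t, ?_, ?_⟩
  · rintro rfl
    exact h1 (by rw [ht, mul_zero])
  · rw [ht, pow_two]

private lemma Fc_desc [IsGalois ℚ M] (σ : K →ₐ[ℚ] M) {t : M}
    (h : ∀ g : M ≃ₐ[ℚ] M, actH K M g σ = σ → g t = t) : ∃ y : K, σ y = t := by
  have h1 : t ∈ IntermediateField.fixedField (σ.fieldRange.fixingSubgroup) := by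
    rw [IntermediateField.mem_fixedField_iff]
    intro g hg
    apply h g
    ext x
    rw [actH_apply]
    exact (IntermediateField.mem_fixingSubgroup_iff _ _).1 hg (σ x) ⟨x, rfl⟩
  rw [IsGalois.fixedField_fixingSubgroup] at h1
  exact h1

private lemma Fc_zero {u v : SC K} {y : K} (h : rep u * rep v = y ^ 2) : u = v := by
  have h1 : sc (rep u * rep v) = 0 :=
    (sc_eq_zero (mul_ne_zero (rep_ne u) (rep_ne v))).2 ⟨y, by rw [h, pow_two]⟩
  rw [sc_mul (rep_ne u) (rep_ne v), sc_rep, sc_rep] at h1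
  have h2 : v + v = 0 := (two_nsmul v).symm.trans (SC.two_smul v)
  exact add_right_cancel (h1.trans h2.symm)

theorem ker_gen (hL : BigL K M) {u : SC K} (hu : u ∈ E0m K M) (h0 : u ≠ 0) :
    ∃ (g : M ≃ₐ[ℚ] M) (σ : K →ₐ[ℚ] M) (t : M), t ^ 2 = σ (rep u) ∧ actH K M g σ = σ ∧
      g t = - t := by
  haveI := hL.gal
  have h1 : 0 < Fintype.card (K →ₐ[ℚ] M) := by
    rw [hL.card]
    exact Module.finrank_pos
  obtain ⟨σ⟩ := Fintype.card_pos_iff.1 h1
  obtain ⟨t, ht0, ht⟩ := Fc_sq (hu σ)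
  by_cases h : ∀ g : M ≃ₐ[ℚ] M, actH K M g σ = σ → g t = t
  · exfalso
    obtain ⟨y, rfl⟩ := Fc_desc σ h
    apply h0
    rw [← map_pow] at ht
    have h2 := σ.injective ht
    have h3 : sc (rep u) = 0 := (sc_eq_zero (rep_ne u)).2 ⟨y, by rw [← h2, pow_two]⟩
    rwa [sc_rep] at h3
  · push Not at h
    obtain ⟨g, hg, hgt⟩ := h
    refine ⟨g, σ, t, ht, hg, ?_⟩
    have h3 : (g t) ^ 2 = t ^ 2 := by
      rw [← map_pow, ht, ← actH_apply, hg]
    rcases sq_eq_sq_iff_eq_or_eq_neg.1 h3 with h4 | h4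
    · exact absurd h4 hgt
    · exact h4

theorem ker_fin [IsGalois ℚ M] (σ : K →ₐ[ℚ] M) : {u : SC K | em σ u = 0}.Finite := by
  choose! t ht0 ht using fun (u : SC K) (h : em σ u = 0) => Fc_sq h
  refine Set.Finite.of_finite_image (f := fun u => {g : M ≃ₐ[ℚ] M | g (t u) = t u})
    (Set.toFinite _) ?_
  intro u hu v hv huv
  have hu' : em σ u = 0 := hu
  have hv' : em σ v = 0 := hv
  have hg : ∀ (w : SC K), em σ w = 0 → ∀ g : M ≃ₐ[ℚ] M, actH K M g σ = σ →
      g (t w) = t w ∨ g (t w) = - t w := by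
    intro w hw g hg
    apply sq_eq_sq_iff_eq_or_eq_neg.1
    rw [← map_pow, ht w hw, ← actH_apply, hg]
  have huv' : ∀ g : M ≃ₐ[ℚ] M, g (t u) = t u ↔ g (t v) = t v := by
    intro g
    have h1 : g ∈ {g : M ≃ₐ[ℚ] M | g (t u) = t u} ↔ g ∈ {g : M ≃ₐ[ℚ] M | g (t v) = t v} := by
      have h2 : {g : M ≃ₐ[ℚ] M | g (t u) = t u} = {g : M ≃ₐ[ℚ] M | g (t v) = t v} := huv
      rw [h2]
    exact h1
  obtain ⟨y, hy⟩ : ∃ y : K, σ y = t u * t v := by
    apply Fc_desc σ
    intro g hgσ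
    rw [map_mul]
    by_cases h1 : g (t u) = t u
    · rw [h1, (huv' g).1 h1]
    · have h2 : ¬ g (t v) = t v := fun h => h1 ((huv' g).2 h)
      rw [(hg u hu' g hgσ).resolve_left h1, (hg v hv' g hgσ).resolve_left h2]
      ring
  apply Fc_zero (y := y)
  have h5 : σ (rep u * rep v) = σ (y ^ 2) := by
    rw [map_mul, map_pow, hy, ← ht u hu', ← ht v hv']
    ring
  exact σ.injective h5

theorem E0_fin (hL : BigL K M) : (E0m K M).Finite := by
  haveI := hL.gal
  have h1 : 0 < Fintype.card (K →ₐ[ℚ] M) := by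
    rw [hL.card]
    exact Module.finrank_pos
  obtain ⟨σ⟩ := Fintype.card_pos_iff.1 h1
  exact (ker_fin σ).subset fun u hu => hu σ

theorem QK_fin (hL : BigL K M) : ((QKm M : AddSubgroup (SC ℚ)) : Set (SC ℚ)).Finite := by
  haveI := hL.gal
  have h1 := ker_fin (K := ℚ) (M := M) (Algebra.ofId ℚ M)
  exact h1

end H30T8
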