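import Pool.Agent.H30.T8.Fa
import Pool.Agent.H30.T8.Fb
import Pool.Agent.H30.T8.Fc

/-!
ROW Fd (project MP_78d38b_T8, about 120 lines): the prescribed primes.

PROOF. First by induction on a finite set `Z` (`Finset.induction_on`) of classes with `Z ⊆ E0m K M`, `0 ∉ Z`: there are disjoint `Qa`, `Qb` with primes
`≠ 2` not in `T`, `Qa.card = Qb.card`, `(ov K Qa).ncard = (ov K Qb).ncard` and for all `u ∈ Z` places in `ov K Qa` and in `ov K Qb` with
`la v u = 1`. Step (`u` new): `ker_gen hL` gives `g, σ, t`; `frob_places hodd hL g {u}` is an infinite set of primes; choose `q` in it outside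
`T ∪ Qa ∪ Qb` and `q'` in it outside `T ∪ Qa ∪ Qb ∪ {q}` (`Set.Infinite.exists_notMem_finset`): both have
`c = Nat.card (Quotient ..)` places and a place with `la v u = 1`. `insert q Qa`, `insert q' Qb`: `ov K (insert q Qa) = ov K {q} ∪ ov K Qa`, a disjoint
union of finite sets (see `Fe_union`, `Fe_disj` in `Pool/Agent/H88/T7/Fe.lean`; `H38T1.mem_ov`, `H38T1.fin_ov`), `Set.ncard_union_eq`.
Then apply this to `Z = E0m K M \ {0}` (`(E0_fin hL).toFinset.erase 0`) and add a prime `q₁` of `frob_places` for `g = 1` to `Qa` and a prime `q₂` for the `g` of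
`conj_orb hL` to `Qb` (`Z = ∅`; new and different): `(ov K {q₁}).ncard = finrank` (`one_orb`), `(ov K {q₂}).ncard + nrComplexPlaces = finrank`.
-/

set_option autoImplicit false
set_option linter.unusedSectionVars false
open scoped Classical

open WithZero NumberField IsDedekindDomain H38RT H88T7 H88T8 H90T8
open H38T1 (SC sc scu scu_surj sc_mul sc_of_ne sc_surj rep rep_ne sc_rep sc_eq_zero eo la si Pri OddP
  LD XX XX' NS ov rp SqMod)

namespace H30T8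

variable {K M : Type} [Field K] [NumberField K] [Field M] [NumberField M]

private lemma T8zFd_union (F : Type) [Field F] [NumberField F] (S T : Set ℕ) :
    ov F (S ∪ T) = ov F S ∪ ov F T := by
  ext v
  constructor
  · rintro ⟨q, hq | hq, h⟩
    · exact Or.inl ⟨q, hq, h⟩
    · exact Or.inr ⟨q, hq, h⟩
  · rintro (⟨q, hq, h⟩ | ⟨q, hq, h⟩)
    · exact ⟨q, Or.inl hq, h⟩
    · exact ⟨q, Or.inr hq, h⟩

private lemma T8zFd_disj (F : Type) [Field F] [NumberField F] {S T : Set ℕ}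
    (hS : ∀ q ∈ S, q.Prime) (hT : ∀ q ∈ T, q.Prime) (h : Disjoint S T) :
    Disjoint (ov F S) (ov F T) := by
  rw [Set.disjoint_left]
  intro v hv hv'
  rw [H38T1.mem_ov hS] at hv
  rw [H38T1.mem_ov hT] at hv'
  exact (Set.disjoint_left.mp h) hv hv'

private lemma T8zFd_ins (F : Type) [Field F] [NumberField F] {q : ℕ} {Q : Finset ℕ}
    (hq : q.Prime) (hQ : ∀ p ∈ Q, p.Prime) (h : q ∉ Q) :
    (ov F ((insert q Q : Finset ℕ) : Set ℕ)).ncard = (ov F {q}).ncard + (ov F (Q : Set ℕ)).ncard ∧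
      ov F ((insert q Q : Finset ℕ) : Set ℕ) = ov F {q} ∪ ov F (Q : Set ℕ) := by
  have hq' : ∀ p ∈ ({q} : Set ℕ), p.Prime := by
    intro p hp
    rw [Set.mem_singleton_iff] at hp
    rw [hp]
    exact hq
  have hQ' : ∀ p ∈ (Q : Set ℕ), p.Prime := fun p hp => hQ p (Finset.mem_coe.mp hp)
  have hd : Disjoint ({q} : Set ℕ) (Q : Set ℕ) := by
    rw [Set.disjoint_singleton_left]
    exact fun h' => h (Finset.mem_coe.mp h')
  have he : ov F ((insert q Q : Finset ℕ) : Set ℕ) = ov F {q} ∪ ov F (Q : Set ℕ) := by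
    rw [Finset.coe_insert, Set.insert_eq, T8zFd_union]
  refine ⟨?_, he⟩
  rw [he, Set.ncard_union_eq (T8zFd_disj F hq' hQ' hd)
    (H38T1.fin_ov (Set.finite_singleton q) hq') (H38T1.fin_ov Q.finite_toSet hQ')]

private lemma T8zFd_empty (F : Type) [Field F] [NumberField F] :
    ov F ((∅ : Finset ℕ) : Set ℕ) = ∅ := by
  ext v
  constructor
  · rintro ⟨q, hq, _⟩
    simp at hq
  · intro h
    exact absurd h (Set.notMem_empty _)

private lemma T8zFd_ind (hodd : Odd (Module.finrank ℚ K)) (hL : BigL K M) (T : Finset ℕ)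
    (Z : Finset (SC K)) : (∀ u ∈ Z, u ∈ E0m K M ∧ u ≠ 0) →
    ∃ Qa Qb : Finset ℕ, Disjoint Qa Qb ∧ (∀ q ∈ Qa ∪ Qb, q.Prime ∧ q ≠ 2 ∧ q ∉ T) ∧
      Qa.card = Qb.card ∧
      (ov K (Qa : Set ℕ)).ncard = (ov K (Qb : Set ℕ)).ncard ∧
      (∀ u ∈ Z, (∃ v ∈ ov K (Qa : Set ℕ), la v u = 1) ∧ ∃ v ∈ ov K (Qb : Set ℕ), la v u = 1) := by
  induction Z using Finset.induction_on with
  | empty =>
    intro _
    refine ⟨∅, ∅, Finset.disjoint_empty_left _, ?_, rfl, rfl, ?_⟩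
    · intro q hq
      simp at hq
    · intro u hu
      simp at hu
  | insert u Z hu ih =>
    intro hZ
    obtain ⟨Qa, Qb, h1, h2, h3, h4, h5⟩ := ih fun w hw => hZ w (Finset.mem_insert_of_mem hw)
    obtain ⟨hu1, hu2⟩ := hZ u (Finset.mem_insert_self _ _)
    obtain ⟨g, σ, t, ht1, ht2, ht3⟩ := ker_gen hL hu1 hu2
    have hinf := frob_places hodd hL g {u}
    obtain ⟨q, hq, hqT⟩ := hinf.exists_notMem_finset (T ∪ (Qa ∪ Qb))
    obtain ⟨q', hq', hqT'⟩ := hinf.exists_notMem_finset (insert q (T ∪ (Qa ∪ Qb)))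
    obtain ⟨a1, a2, a3, a4⟩ := hq
    obtain ⟨b1, b2, b3, b4⟩ := hq'
    obtain ⟨v, hv, hv1⟩ := a4 u (Finset.mem_singleton_self u) ⟨σ, t, ht1, ht2, ht3⟩
    obtain ⟨v', hv', hv1'⟩ := b4 u (Finset.mem_singleton_self u) ⟨σ, t, ht1, ht2, ht3⟩
    rw [Finset.mem_union, not_or, Finset.mem_union, not_or] at hqT
    obtain ⟨c1, c2, c3⟩ := hqT
    rw [Finset.mem_insert, not_or, Finset.mem_union, not_or, Finset.mem_union, not_or] at hqT'
    obtain ⟨d0, d1, d2, d3⟩ := hqT'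
    have hPa : ∀ p ∈ Qa, p.Prime := fun p hp => (h2 p (Finset.mem_union_left _ hp)).1
    have hPb : ∀ p ∈ Qb, p.Prime := fun p hp => (h2 p (Finset.mem_union_right _ hp)).1
    obtain ⟨e1, e2⟩ := T8zFd_ins K a1 hPa c2
    obtain ⟨f1, f2⟩ := T8zFd_ins K b1 hPb d3
    refine ⟨insert q Qa, insert q' Qb, ?_, ?_, ?_, ?_, ?_⟩
    · rw [Finset.disjoint_insert_left, Finset.disjoint_insert_right, Finset.mem_insert, not_or]
      exact ⟨⟨fun h => d0 h.symm, c3⟩, d2, h1⟩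
    · intro p hp
      rw [Finset.mem_union, Finset.mem_insert, Finset.mem_insert] at hp
      rcases hp with (rfl | hp) | (rfl | hp)
      · exact ⟨a1, a2, c1⟩
      · exact h2 p (Finset.mem_union_left _ hp)
      · exact ⟨b1, b2, d1⟩
      · exact h2 p (Finset.mem_union_right _ hp)
    · rw [Finset.card_insert_of_notMem c2, Finset.card_insert_of_notMem d3, h3]
    · rw [e1, f1, a3, b3, h4]
    · intro w hw
      rw [e2, f2]
      rw [Finset.mem_insert] at hw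
      rcases hw with rfl | hw
      · exact ⟨⟨v, Or.inl hv, hv1⟩, ⟨v', Or.inl hv', hv1'⟩⟩
      · obtain ⟨⟨x, hx, hx1⟩, ⟨y, hy, hy1⟩⟩ := h5 w hw
        exact ⟨⟨x, Or.inr hx, hx1⟩, ⟨y, Or.inr hy, hy1⟩⟩

theorem exists_presc (hodd : Odd (Module.finrank ℚ K)) (hL : BigL K M) (T : Finset ℕ) :
    ∃ Qa Qb : Finset ℕ, Disjoint Qa Qb ∧ (∀ q ∈ Qa ∪ Qb, q.Prime ∧ q ≠ 2 ∧ q ∉ T) ∧
      Qa.Nonempty ∧ Qb.Nonempty ∧ Qa.card = Qb.card ∧
      (∀ u ∈ E0m K M, u ≠ 0 →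
        (∃ v ∈ ov K (Qa : Set ℕ), la v u = 1) ∧ ∃ v ∈ ov K (Qb : Set ℕ), la v u = 1) ∧
      (ov K (Qb : Set ℕ)).ncard + InfinitePlace.nrComplexPlaces K =
        (ov K (Qa : Set ℕ)).ncard := by
  obtain ⟨Qa, Qb, h1, h2, h3, h4, h5⟩ := T8zFd_ind hodd hL T ((E0_fin hL).toFinset.erase 0)
    (fun u hu => by
      rw [Finset.mem_erase, Set.Finite.mem_toFinset] at hu
      exact ⟨hu.2, hu.1⟩)
  obtain ⟨g, hg⟩ := conj_orb hL
  have hone := one_orb hL
  have hi1 := frob_places hodd hL (1 : M ≃ₐ[ℚ] M) ∅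
  have hi2 := frob_places hodd hL g ∅
  obtain ⟨q, hq, hqT⟩ := hi1.exists_notMem_finset (T ∪ (Qa ∪ Qb))
  obtain ⟨q', hq', hqT'⟩ := hi2.exists_notMem_finset (insert q (T ∪ (Qa ∪ Qb)))
  obtain ⟨a1, a2, a3, -⟩ := hq
  obtain ⟨b1, b2, b3, -⟩ := hq'
  rw [Finset.mem_union, not_or, Finset.mem_union, not_or] at hqT
  obtain ⟨c1, c2, c3⟩ := hqT
  rw [Finset.mem_insert, not_or, Finset.mem_union, not_or, Finset.mem_union, not_or] at hqT'
  obtain ⟨d0, d1, d2, d3⟩ := hqT'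
  have hPa : ∀ p ∈ Qa, p.Prime := fun p hp => (h2 p (Finset.mem_union_left _ hp)).1
  have hPb : ∀ p ∈ Qb, p.Prime := fun p hp => (h2 p (Finset.mem_union_right _ hp)).1
  obtain ⟨e1, e2⟩ := T8zFd_ins K a1 hPa c2
  obtain ⟨f1, f2⟩ := T8zFd_ins K b1 hPb d3
  refine ⟨insert q Qa, insert q' Qb, ?_, ?_, Finset.insert_nonempty _ _,
    Finset.insert_nonempty _ _, ?_, ?_, ?_⟩
  · rw [Finset.disjoint_insert_left, Finset.disjoint_insert_right, Finset.mem_insert, not_or]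
    exact ⟨⟨fun h => d0 h.symm, c3⟩, d2, h1⟩
  · intro p hp
    rw [Finset.mem_union, Finset.mem_insert, Finset.mem_insert] at hp
    rcases hp with (rfl | hp) | (rfl | hp)
    · exact ⟨a1, a2, c1⟩
    · exact h2 p (Finset.mem_union_left _ hp)
    · exact ⟨b1, b2, d1⟩
    · exact h2 p (Finset.mem_union_right _ hp)
  · rw [Finset.card_insert_of_notMem c2, Finset.card_insert_of_notMem d3, h3]
  · intro u hu hu0
    rw [e2, f2]
    obtain ⟨⟨x, hx, hx1⟩, ⟨y, hy, hy1⟩⟩ := h5 u (by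
      rw [Finset.mem_erase, Set.Finite.mem_toFinset]
      exact ⟨hu0, hu⟩)
    exact ⟨⟨x, Or.inr hx, hx1⟩, ⟨y, Or.inr hy, hy1⟩⟩
  · rw [e1, f1, h4, a3, b3, hone, ← hg]
    ring

end H30T8
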