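import Pool.Agent.H88.T7.Fc

/-!
ROW Fe (project MP_78d38b_T8, about 170 lines): the squarefree sieve with prescribed primes.

PROOF. Modification of the PROVED theorem `H88T7.sieve` (`Pool/Agent/H88/T7/Fc.lean`; all its lemmas `Fc_class`, `Fc_sum`, `Fc_le`, `Fc_zero` are
public and can be used) for `a = 1`. Only the lemma `Fc_bad` changes: the new hypothesis `hM` says that for a prime `q ∣ M` the square
`q ^ 2` never divides the value `f t = (β₀ + M t) (1 - 64 (β₀ + M t))`; so a prime `q` with `q ^ 2 ∣ f t` does not divide `M`; the rest of the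
proof of `Fc_bad` is as before (`q ≥ 7`; `q` does not divide both factors as `1 = (1 - 64 b) + 64 b`).
In the proof of `sieve` nothing changes except `a = 1` and this lemma.
-/

set_option autoImplicit false
open scoped Classical

namespace H30T8

theorem Fe_bad {b M : ℤ} (h2 : (2 : ℤ) ∣ M) (h3 : (3 : ℤ) ∣ M)
    (h5 : (5 : ℤ) ∣ M)
    (hM : ∀ q : ℕ, q.Prime → (q : ℤ) ∣ M → ¬ (q : ℤ) ^ 2 ∣ b * (1 - 64 * b))
    (hns : ¬ Squarefree (b * (1 - 64 * b))) :
    ∃ q : ℕ, q.Prime ∧ 7 ≤ q ∧ IsCoprime (q : ℤ) M ∧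
      (((q ^ 2 : ℕ) : ℤ) ∣ b ∨ ((q ^ 2 : ℕ) : ℤ) ∣ 1 - 64 * b) := by
  rw [← Int.squarefree_natAbs, Nat.squarefree_iff_prime_squarefree] at hns
  push Not at hns
  obtain ⟨q, hq, hqd⟩ := hns
  have hqd' : ((q : ℤ) * q) ∣ b * (1 - 64 * b) := by
    have := Int.natCast_dvd.2 hqd
    push_cast at this
    exact this
  have hqZ : Prime (q : ℤ) := Nat.prime_iff_prime_int.1 hq
  have hqM : ¬ (q : ℤ) ∣ M := by
    intro h
    apply hM q hq h
    rw [sq]
    exact hqd'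
  have hcop : IsCoprime (q : ℤ) M := (Prime.coprime_iff_not_dvd hqZ).2 hqM
  refine ⟨q, hq, ?_, hcop, ?_⟩
  · by_contra hlt
    push Not at hlt
    have hq2 := hq.two_le
    interval_cases q
    · exact hqM h2
    · exact hqM h3
    · exact absurd hq (by norm_num)
    · exact hqM h5
    · exact absurd hq (by norm_num)
  · have hcast : ((q ^ 2 : ℕ) : ℤ) = (q : ℤ) * q := by push_cast; ring
    rw [hcast]
    by_cases h6 : (q : ℤ) ∣ b
    · by_cases h7 : (q : ℤ) ∣ 1 - 64 * b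
      · exfalso
        have h8 : (q : ℤ) ∣ 1 := by
          have := dvd_add h7 (h6.mul_left 64)
          rwa [show 1 - 64 * b + 64 * b = 1 by ring] at this
        exact hqZ.not_isUnit (isUnit_of_dvd_one h8)
      · left
        have h8 : IsCoprime ((q : ℤ) * q) (1 - 64 * b) :=
          IsCoprime.mul_left ((Prime.coprime_iff_not_dvd hqZ).2 h7) ((Prime.coprime_iff_not_dvd hqZ).2 h7)
        exact h8.dvd_of_dvd_mul_right hqd'
    · right
      have h8 : IsCoprime ((q : ℤ) * q) b :=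
        IsCoprime.mul_left ((Prime.coprime_iff_not_dvd hqZ).2 h6) ((Prime.coprime_iff_not_dvd hqZ).2 h6)
      exact h8.dvd_of_dvd_mul_left hqd'

theorem sieve8 {β₀ M : ℤ} (hM0 : 0 < M) (h2 : (2 : ℤ) ∣ M) (h3 : (3 : ℤ) ∣ M) (h5 : (5 : ℤ) ∣ M)
    (hM : ∀ q : ℕ, q.Prime → (q : ℤ) ∣ M → ∀ t : ℕ,
      ¬ (q : ℤ) ^ 2 ∣ (β₀ + M * t) * (1 - 64 * (β₀ + M * t))) :
    {t : ℕ | Squarefree ((β₀ + M * t) * (1 - 64 * (β₀ + M * t)))}.Infinite := by
  intro hfin
  set S : Set ℕ := {t : ℕ | Squarefree ((β₀ + M * t) * (1 - 64 * (β₀ + M * t)))} with hS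
  obtain ⟨Kc, hKc⟩ : ∃ Kc : ℕ, Kc = hfin.toFinset.card := ⟨_, rfl⟩
  obtain ⟨C, hC⟩ : ∃ C : ℕ, (C : ℤ) = 64 * (|β₀| + M) + 1 := by
    refine ⟨(64 * (|β₀| + M) + 1).toNat, ?_⟩
    rw [Int.toNat_of_nonneg]
    positivity
  obtain ⟨T, hT⟩ : ∃ T : ℕ, T = 3 * (Kc + 3 + 4 * C) := ⟨_, rfl⟩
  set Q : ℕ := Nat.sqrt (C * T) with hQ
  have hT1 : (1 : ℤ) ≤ T := by rw [hT]; push_cast; nlinarith
  have hT1' : 1 ≤ T := by omega
  have hC0 : (0 : ℤ) ≤ C := by positivity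
  set U : ℕ → Finset ℕ := fun m => if IsCoprime (m : ℤ) M then
    (Finset.range T).filter (fun t : ℕ => ((m ^ 2 : ℕ) : ℤ) ∣ β₀ + M * t) ∪
    (Finset.range T).filter (fun t : ℕ => ((m ^ 2 : ℕ) : ℤ) ∣ (1 - 64 * β₀) + (-64 * M) * t)
    else ∅ with hU
  have hUcard : ∀ m ∈ Finset.Ico 7 (Q + 1), (U m).card ≤ 2 * (T / m ^ 2 + 1) := by
    intro m hm
    rw [Finset.mem_Ico] at hm
    simp only [hU]
    split_ifs with hcop
    · have hm2 : 0 < m ^ 2 := pow_pos (by omega) 2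
      have c1 : IsCoprime ((m ^ 2 : ℕ) : ℤ) M := by
        push_cast
        exact hcop.pow_left
      have c2 : IsCoprime ((m ^ 2 : ℕ) : ℤ) (-64 * M) := by
        have e1 : IsCoprime ((m ^ 2 : ℕ) : ℤ) 2 := c1.of_isCoprime_of_dvd_right h2
        have e2 : IsCoprime ((m ^ 2 : ℕ) : ℤ) (64 : ℤ) := by
          have := e1.pow_right (n := 6)
          norm_num at this
          exact_mod_cast this
        have e3 : IsCoprime ((m ^ 2 : ℕ) : ℤ) (-64 : ℤ) := e2.neg_right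
        exact e3.mul_right c1
      have d1 := H88T7.Fc_class hm2 (e := β₀) c1 T
      have d2 := H88T7.Fc_class hm2 (e := 1 - 64 * β₀) c2 T
      refine (Finset.card_union_le _ _).trans ?_
      omega
    · rw [Finset.card_empty]
      exact Nat.zero_le _
  have hcov : Finset.range T ⊆ ((hfin.toFinset ∪
      ((Finset.range T).filter (fun t : ℕ => β₀ + M * t = 0))) ∪
      ((Finset.range T).filter (fun t : ℕ => (1 - 64 * β₀) + (-64 * M) * t = 0))) ∪
      (Finset.Ico 7 (Q + 1)).biUnion U := by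
    intro t ht
    have htT := Finset.mem_range.1 ht
    have htT' : (t : ℤ) ≤ T := by exact_mod_cast htT.le
    have ht0 : (0 : ℤ) ≤ t := by positivity
    by_cases hs : t ∈ S
    · exact Finset.mem_union_left _ (Finset.mem_union_left _ (Finset.mem_union_left _
        ((Set.Finite.mem_toFinset hfin).2 hs)))
    by_cases hb0 : β₀ + M * (t : ℤ) = 0
    · exact Finset.mem_union_left _ (Finset.mem_union_left _ (Finset.mem_union_right _
        (Finset.mem_filter.2 ⟨ht, hb0⟩)))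
    have hdeq : 1 - 64 * (β₀ + M * (t : ℤ)) = (1 - 64 * β₀) + (-64 * M) * t := by ring
    by_cases hd0 : (1 - 64 * β₀) + (-64 * M) * (t : ℤ) = 0
    · exact Finset.mem_union_left _ (Finset.mem_union_right _ (Finset.mem_filter.2 ⟨ht, hd0⟩))
    refine Finset.mem_union_right _ ?_
    have hd0' : 1 - 64 * (β₀ + M * (t : ℤ)) ≠ 0 := by rw [hdeq]; exact hd0
    obtain ⟨q, hq, hq7, hcop, hor⟩ := Fe_bad h2 h3 h5 (fun q hq hqM => hM q hq hqM t) hs
    have hβ := abs_nonneg β₀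
    have hβ1 := neg_abs_le β₀
    have hβ2 := le_abs_self β₀
    have hMt : M * (t : ℤ) ≤ M * T := mul_le_mul_of_nonneg_left htT' hM0.le
    have hMt0 : 0 ≤ M * (t : ℤ) := by positivity
    have hβT : |β₀| ≤ |β₀| * T := by nlinarith
    have hbC : |β₀ + M * (t : ℤ)| ≤ (C : ℤ) * T := by
      rw [hC, abs_le]
      constructor <;> nlinarith
    have hdC : |1 - 64 * (β₀ + M * (t : ℤ))| ≤ (C : ℤ) * T := by
      rw [hC, abs_le]
      constructor <;> nlinarith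
    have hqQ : q ≤ Q := by
      rcases hor with h | h
      · exact H88T7.Fc_le hb0 h hbC
      · exact H88T7.Fc_le hd0' h hdC
    rw [Finset.mem_biUnion]
    refine ⟨q, Finset.mem_Ico.2 ⟨hq7, by omega⟩, ?_⟩
    simp only [hU]
    rw [if_pos hcop, Finset.mem_union]
    rcases hor with h | h
    · exact Or.inl (Finset.mem_filter.2 ⟨ht, h⟩)
    · refine Or.inr (Finset.mem_filter.2 ⟨ht, ?_⟩)
      rw [← hdeq]
      exact h
  have hz1 := H88T7.Fc_zero (c := M) (e := β₀) hM0.ne' T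
  have hz2 := H88T7.Fc_zero (c := -64 * M) (e := 1 - 64 * β₀) (by omega) T
  have hcard : T ≤ Kc + 1 + 1 + ∑ m ∈ Finset.Ico 7 (Q + 1), 2 * (T / m ^ 2 + 1) := by
    have h1 := Finset.card_le_card hcov
    rw [Finset.card_range] at h1
    refine h1.trans ((Finset.card_union_le _ _).trans (add_le_add ?_ ?_))
    · refine (Finset.card_union_le _ _).trans (add_le_add ?_ hz2)
      refine (Finset.card_union_le _ _).trans (add_le_add (by rw [hKc]) hz1)
    · exact Finset.card_biUnion_le.trans (Finset.sum_le_sum hUcard)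
  have hcardR : (T : ℝ) ≤ Kc + 2 + ∑ m ∈ Finset.Ico 7 (Q + 1), (2 * ((T : ℝ) * (1 / (m : ℝ) ^ 2)) + 2) := by
    have h1 : (T : ℝ) ≤ ((Kc + 1 + 1 + ∑ m ∈ Finset.Ico 7 (Q + 1), 2 * (T / m ^ 2 + 1) : ℕ) : ℝ) := by
      exact_mod_cast hcard
    refine h1.trans ?_
    push_cast
    have h4 : ∑ m ∈ Finset.Ico 7 (Q + 1), 2 * (((T / m ^ 2 : ℕ) : ℝ) + 1) ≤
        ∑ m ∈ Finset.Ico 7 (Q + 1), (2 * ((T : ℝ) * (1 / (m : ℝ) ^ 2)) + 2) := by
      refine Finset.sum_le_sum fun m _ => ?_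
      have h6 : ((T / m ^ 2 : ℕ) : ℝ) ≤ (T : ℝ) / ((m ^ 2 : ℕ) : ℝ) := Nat.cast_div_le
      push_cast at h6
      rw [div_eq_mul_one_div] at h6
      linarith
    push_cast at h4
    linarith
  rw [Finset.sum_add_distrib, ← Finset.mul_sum, ← Finset.mul_sum, Finset.sum_const, Nat.card_Ico,
    nsmul_eq_mul] at hcardR
  have hsum : ∑ m ∈ Finset.Ico 7 (Q + 1), (1 : ℝ) / (m : ℝ) ^ 2 ≤ 1 / 6 := by
    by_cases h7 : 7 ≤ Q + 1
    · have h8 := H88T7.Fc_sum (Q + 1) h7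
      have h9 : (0 : ℝ) ≤ 1 / (((Q + 1 : ℕ) : ℝ) - 1) := by
        push_cast
        rw [add_sub_cancel_right]
        positivity
      linarith
    · rw [Finset.Ico_eq_empty (by omega), Finset.sum_empty]
      norm_num
  have hQc : ((Q + 1 - 7 : ℕ) : ℝ) ≤ (Q : ℝ) := by exact_mod_cast (by omega : Q + 1 - 7 ≤ Q)
  have hQ2 : (Q : ℝ) * Q ≤ (C : ℝ) * T := by
    have h1 : Q * Q ≤ C * T := Nat.sqrt_le _
    exact_mod_cast h1
  have hTr : (T : ℝ) = 3 * (Kc + 3 + 4 * C) := by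
    rw [hT]
    push_cast
    ring
  have hT0 : (0 : ℝ) ≤ T := Nat.cast_nonneg _
  have hCr : (0 : ℝ) ≤ C := Nat.cast_nonneg _
  have hKr : (0 : ℝ) ≤ Kc := Nat.cast_nonneg _
  have hQle : (Q : ℝ) ≤ (T : ℝ) / 8 + 2 * C := by
    by_contra hcon
    push Not at hcon
    have h1 : ((T : ℝ) / 8 + 2 * C) * ((T : ℝ) / 8 + 2 * C) < (Q : ℝ) * Q :=
      mul_self_lt_mul_self (by positivity) hcon
    nlinarith [sq_nonneg ((T : ℝ) / 8 - 2 * C)]
  have hTs : (T : ℝ) * ∑ m ∈ Finset.Ico 7 (Q + 1), (1 : ℝ) / (m : ℝ) ^ 2 ≤ (T : ℝ) * (1 / 6) :=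
    mul_le_mul_of_nonneg_left hsum hT0
  nlinarith

end H30T8
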