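import Pool.Agent.H30.T8.Fd
import Pool.Agent.H30.T8.Ff
import Pool.Agent.H88.T7.Fb

/-!
ROW Fg (project MP_78d38b_T8, about 60 lines): assembly, the curves.

PROOF. `S = {v : HeightOneSpectrum (𝓞 ℚ) | ∃ d ∈ QKm M, eo v d ≠ 0}` is finite (`QK_fin hL`, and for one `d` the places with `eo v d ≠ 0` are
places where the valuation of `rep d` is not one: `fin_bad (rep_ne d)`, `H38T1.eo_...`; see `Pool/Agent/H88/T7/Fb.lean` where the same is
done for `disc`). `F = {2, 3, 5} ∪ S.image rp`, primes (`H38T1.rp_prime`). `exists_B K hodd F`: `B`. Then `unr` is `Bas.unr`, `two` is `Bas.two`,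
`quad`: if `rp v ∉ B` then `v ∉ S`. `exists_presc hodd hL B`: `Qa`, `Qb`. `exists_beta B Qa Qb`: infinitely many `β`, and each gives `Dat8`
(`Set.Infinite.mono`).
-/

set_option autoImplicit false
set_option linter.unusedSectionVars false
open scoped Classical

open WithZero NumberField IsDedekindDomain H38RT H88T7 H88T8 H90T8
open H38T1 (SC sc scu scu_surj sc_mul sc_of_ne sc_surj rep rep_ne sc_rep sc_eq_zero eo la si Pri OddP
  LD XX XX' NS ov rp SqMod)

namespace H30T8

variable {K M : Type} [Field K] [NumberField K] [Field M] [NumberField M]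

theorem Fg_fin (hL : BigL K M) :
    {v : HeightOneSpectrum (𝓞 ℚ) | ∃ d ∈ QKm M, eo v d ≠ 0}.Finite := by
  have h1 : (⋃ d ∈ ((QKm M : AddSubgroup (SC ℚ)) : Set (SC ℚ)),
      {v : HeightOneSpectrum (𝓞 ℚ) | v.valuation ℚ (rep d) ≠ 1}).Finite :=
    (QK_fin hL).biUnion fun d _ => fin_bad (rep_ne d)
  refine h1.subset ?_
  rintro v ⟨d, hd, hv⟩
  refine Set.mem_biUnion hd ?_
  intro h
  apply hv
  rw [← sc_rep d, H38T1.eo_sc (rep_ne d)]
  have h2 : ord (v.valuation ℚ) (rep d) = 0 := by
    unfold ord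
    rw [h, WithZero.log_one, neg_zero]
  rw [h2, Int.cast_zero]

theorem exists_dat8 (hodd : Odd (Module.finrank ℚ K)) (hL : BigL K M) :
    ∃ B : Finset ℕ, {β : ℤ | ∃ Qa Qb : Finset ℕ,
      Dat8 K B (QKm M) (E0m K M) β Qa Qb}.Infinite := by
  obtain ⟨B, hB, hFB, hBp, -⟩ := H88T7.exists_B K hodd
    ({2, 3, 5} ∪ (Fg_fin hL).toFinset.image rp) (by
      intro q hq
      rw [Finset.mem_union, Finset.mem_image] at hq
      rcases hq with hq | ⟨v, -, rfl⟩
      · simp only [Finset.mem_insert, Finset.mem_singleton] at hq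
        rcases hq with rfl | rfl | rfl
        · exact Nat.prime_two
        · exact Nat.prime_three
        · exact Nat.prime_five
      · exact H38T1.rp_prime v)
  refine ⟨B, ?_⟩
  obtain ⟨Qa, Qb, h1, h2, h3, h4, h5, h6, h7⟩ := exists_presc hodd hL B
  refine (exists_beta B Qa Qb hBp (hFB (by simp)) (hFB (by simp)) (hFB (by simp)) h1
    (fun q hq => ⟨(h2 q hq).1, (h2 q hq).2.2⟩)).mono ?_
  rintro β ⟨b1, b2, b3, b4, b5, b6⟩
  refine ⟨Qa, Qb, ?_⟩
  exact
    { odd := hodd
      two := hB.two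
      unr := hB.unr
      quad := by
        intro d hd v hv
        by_contra hne
        apply hv
        refine hFB (Finset.mem_union_right _ (Finset.mem_image_of_mem _ ?_))
        exact (Set.Finite.mem_toFinset _).2 ⟨d, hd, hne⟩
      exo := h6
      bo := b1
      pos := b2
      sqf := b3
      co := b4
      pa := fun q hq => ⟨(h2 q (Finset.mem_union_left _ hq)).1, b5 q hq⟩
      pb := fun q hq => ⟨(h2 q (Finset.mem_union_right _ hq)).1, b6 q hq⟩
      na := h3
      nb := h4
      card := h5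
      bal := h7 }

end H30T8
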